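import Pool.Agent.helper70.LZ.SpecW
import Pool.Agent.helper59.FI.Base

set_option autoImplicit false

namespace Pool.Agent.LE

open Pool.Agent.helper58.DC Pool.Agent.DI Pool.Agent.GR Pool.Agent.OB Pool.Agent.DR Pool.Agent.FI Pool.Agent.FI3 Pool.Agent.FI4

/-- a sum over a set with a group action, constant modulo `M` on the orbits -/
theorem WL2_orb {p : ℕ} {M : Ideal (integralClosure ℤ ℂ)} (hS : Setup p M) {P α : Type} [Group P]
    [MulAction P α] (φ : α → ℂ) : ∀ (n : ℕ) (X : Finset α), X.card = n →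
    (∀ l : P, ∀ x ∈ X, l • x ∈ X) → (∀ x ∈ X, IntAt M (φ x)) →
    (∀ l : P, ∀ x ∈ X, InM M (φ (l • x) - φ x)) → ¬ InM M (∑ x ∈ X, φ x) →
    ∃ x ∈ X, ¬ InM M (φ x) ∧ ¬ p ∣ (MulAction.orbit P x).ncard := by
  classical
  intro n
  induction n using Nat.strong_induction_on with
  | _ n ih =>
  intro X hn hX hi hc hs
  by_cases hne : X.Nonempty
  · obtain ⟨x, hx⟩ := hne
    have hsum : ∑ y ∈ X, φ y = ∑ y ∈ X.filter (fun y => y ∈ MulAction.orbit P x), φ y +
        ∑ y ∈ X.filter (fun y => ¬ y ∈ MulAction.orbit P x), φ y :=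
      (Finset.sum_filter_add_sum_filter_not X _ _).symm
    by_cases h : InM M (∑ y ∈ X.filter (fun y => ¬ y ∈ MulAction.orbit P x), φ y)
    · have h1 : ¬ InM M (∑ y ∈ X.filter (fun y => y ∈ MulAction.orbit P x), φ y) := by
        intro h2
        apply hs
        rw [hsum]
        exact InM.add hS h2 h
      have h2 : ∑ y ∈ X.filter (fun y => y ∈ MulAction.orbit P x), φ y =
          ((X.filter (fun y => y ∈ MulAction.orbit P x)).card : ℂ) * φ x +
            ∑ y ∈ X.filter (fun y => y ∈ MulAction.orbit P x), (φ y - φ x) := by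
        rw [Finset.sum_sub_distrib, Finset.sum_const, nsmul_eq_mul]
        ring
      have h3 : InM M (∑ y ∈ X.filter (fun y => y ∈ MulAction.orbit P x), (φ y - φ x)) := by
        apply InM.sum hS
        intro y hy
        obtain ⟨l, hl⟩ := (Finset.mem_filter.1 hy).2
        simp only at hl
        rw [← hl]
        exact hc l x hx
      have h4 : ¬ InM M (((X.filter (fun y => y ∈ MulAction.orbit P x)).card : ℂ) * φ x) := by
        intro h5
        apply h1
        rw [h2]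
        exact InM.add hS h5 h3
      have h5 : MulAction.orbit P x = ((X.filter (fun y => y ∈ MulAction.orbit P x) : Finset α) : Set α) := by
        ext y
        rw [Finset.mem_coe, Finset.mem_filter]
        constructor
        · intro hy
          refine ⟨?_, hy⟩
          obtain ⟨l, hl⟩ := hy
          simp only at hl
          rw [← hl]
          exact hX l x hx
        · intro hy
          exact hy.2
      refine ⟨x, hx, ?_, ?_⟩
      · intro h6
        exact h4 (InM.mul_left hS (IntAt.natCast hS _) h6)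
      · intro h6
        rw [h5, Set.ncard_coe_finset] at h6
        exact h4 (InM.mul_right hS ((InM.natCast hS _).2 h6) (hi x hx))
    · have hlt : (X.filter (fun y => ¬ y ∈ MulAction.orbit P x)).card < n := by
        rw [← hn]
        apply Finset.card_lt_card
        rw [Finset.filter_ssubset]
        exact ⟨x, hx, fun h6 => h6 (MulAction.mem_orbit_self x)⟩
      obtain ⟨y, hy, h7⟩ := ih _ hlt (X.filter (fun y => ¬ y ∈ MulAction.orbit P x)) rfl (by
        intro l y hy
        rw [Finset.mem_filter] at hy ⊢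
        refine ⟨hX l y hy.1, fun h8 => hy.2 ?_⟩
        obtain ⟨m, hm⟩ := h8
        simp only at hm
        refine ⟨l⁻¹ * m, ?_⟩
        simp only
        rw [mul_smul, hm, inv_smul_smul]) (fun y hy => hi y (Finset.mem_filter.1 hy).1)
        (fun l y hy => hc l y (Finset.mem_filter.1 hy).1) h
      exact ⟨y, (Finset.mem_filter.1 hy).1, h7⟩
  · rw [Finset.not_nonempty_iff_eq_empty] at hne
    subst hne
    exact absurd (InM.zero hS) (by simpa using hs)

theorem WL2_app {G : Type} [Group G] (l : G) (ψ : G → ℂ) (x : G) : cjF l ψ x = ψ (l⁻¹ * x * l) :=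
  funMap_apply l ψ x

theorem WL2_cls {G : Type} [Group G] {K : Subgroup G} {l : G} (hl : cjS l K = K) (y : G) :
    cjF l (cls K y) = cls K (l * y * l⁻¹) := by
  funext x
  rw [WL2_app]
  have hm : ∀ k : G, k ∈ K ↔ l⁻¹ * k * l ∈ K := by
    intro k
    rw [← mem_cjS, hl]
  by_cases h : ∃ k ∈ K, k * y * k⁻¹ = l⁻¹ * x * l
  · rw [cls_one h]
    obtain ⟨k, hk, e⟩ := h
    refine (cls_one ⟨l * k * l⁻¹, ?_, ?_⟩).symm
    · rw [hm]
      have : l⁻¹ * (l * k * l⁻¹) * l = k := by group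
      rwa [this]
    · calc l * k * l⁻¹ * (l * y * l⁻¹) * (l * k * l⁻¹)⁻¹ = l * (k * y * k⁻¹) * l⁻¹ := by group
        _ = l * (l⁻¹ * x * l) * l⁻¹ := by rw [e]
        _ = x := by group
  · rw [cls_zero h]
    refine (cls_zero fun h1 => h ?_).symm
    obtain ⟨k, hk, e⟩ := h1
    refine ⟨l⁻¹ * k * l, (hm k).1 hk, ?_⟩
    rw [← e]
    group

theorem WL2_sum {G : Type} [Group G] [Fintype G] (K : Subgroup G) (η : G → ℂ) (hη : ∀ x, x ∉ K → η x = 0) (g₀ : G)
    (S : Finset G) (hSm : ∀ x, x ∈ S ↔ x ∈ K ∧ ∃ g : G, g * g₀ * g⁻¹ = x) (X : Finset (G → ℂ))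
    (hX : ∀ z, z ∈ X ↔ ∃ y ∈ S, cls K y = z) :
    cc η (cls (⊤ : Subgroup G) g₀) = ∑ z ∈ X, cc η z := by
  classical
  unfold cc
  rw [← Finset.sum_div]
  congr 1
  rw [finsum_eq_sum_of_fintype]
  have h1 : ∀ z ∈ X, ∑ᶠ x, z x * η x = ∑ x ∈ S.filter (fun x => cls K x = z), η x := by
    intro z hz
    obtain ⟨y, hy, rfl⟩ := (hX z).1 hz
    rw [finsum_eq_sum_of_fintype, ← Finset.sum_subset (Finset.subset_univ (S.filter (fun x => cls K x = cls K y)))]
    · apply Finset.sum_congr rfl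
      intro x hx
      have hx2 := (Finset.mem_filter.1 hx).2
      have : cls K y x = 1 := by
        rw [← hx2]
        exact cls_one ⟨1, K.one_mem, by group⟩
      rw [this, one_mul]
    · intro x _ hx
      have : ¬ ∃ k ∈ K, k * y * k⁻¹ = x := by
        rintro ⟨k, hk, e⟩
        apply hx
        rw [Finset.mem_filter, hSm]
        obtain ⟨hyK, g, hg⟩ := (hSm y).1 hy
        refine ⟨⟨?_, k * g, ?_⟩, ?_⟩
        · rw [← e]
          exact K.mul_mem (K.mul_mem hk hyK) (K.inv_mem hk)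
        · rw [← e, ← hg]
          group
        · rw [← e]
          exact cls_congr ⟨k, hk, rfl⟩
      rw [cls_zero this, zero_mul]
  rw [Finset.sum_congr rfl h1, Finset.sum_fiberwise_of_maps_to (g := fun x => cls K x) (t := X)
    (fun x hx => (hX _).2 ⟨x, hx, rfl⟩)]
  rw [← Finset.sum_subset (Finset.subset_univ S)]
  · apply Finset.sum_congr rfl
    intro x hx
    obtain ⟨_, g, hg⟩ := (hSm x).1 hx
    rw [cls_one ⟨g, Subgroup.mem_top g, hg⟩, one_mul]
  · intro x _ hx
    by_cases hxK : x ∈ K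
    · have : ¬ ∃ g ∈ (⊤ : Subgroup G), g * g₀ * g⁻¹ = x := by
        rintro ⟨g, -, e⟩
        exact hx ((hSm x).2 ⟨hxK, g, e⟩)
      rw [cls_zero this, zero_mul]
    · rw [hη x hxK, mul_zero]

theorem WL2_card {G : Type} [Group G] [Finite G] {K L : Subgroup G} {p f : ℕ} (hKL : K ≤ L)
    (hf : K.relIndex L = p ^ f) (y : G) (h : cls L y = cls K y) :
    p ^ f * Nat.card (Cz K y) = Nat.card (Cz L y) := by
  have e1 := sum_cls L y (fun _ => 1)
  have e2 := sum_cls K y (fun _ => 1)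
  have e3 : ∀ H : Subgroup G, ∑ᶠ l ∈ (H : Set G), (1 : ℂ) = Nat.card H := by
    intro H
    classical
    rw [finsum_mem_eq_finite_toFinset_sum _ (Set.toFinite (H : Set G)), Finset.sum_const,
      nsmul_eq_mul, mul_one, ← Set.ncard_eq_toFinset_card (H : Set G) (Set.toFinite (H : Set G))]
    rfl
  rw [e3] at e1 e2
  rw [h] at e1
  have hLK : Nat.card L = p ^ f * Nat.card K := by
    rw [← hf]
    have h9 := Subgroup.relIndex_mul_relIndex (⊥ : Subgroup G) K L bot_le hKL
    rw [Subgroup.relIndex_bot_left, Subgroup.relIndex_bot_left] at h9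
    rw [← h9, mul_comm]
  have hK0 : (Nat.card K : ℂ) ≠ 0 := by
    exact_mod_cast Nat.card_pos.ne'
  rw [hLK] at e1
  push_cast at e1
  have hs : (∑ᶠ x, cls K y x * 1) ≠ 0 := by
    intro h0
    rw [h0, mul_zero] at e2
    exact hK0 e2.symm
  have e4 : ((p ^ f * Nat.card (Cz K y) : ℕ) : ℂ) = ((Nat.card (Cz L y) : ℕ) : ℂ) := by
    push_cast
    apply mul_right_cancel₀ hs
    rw [e1, mul_assoc, e2]
  exact_mod_cast e4

/-- Row WL2. -/
theorem WL2 (_hB2 : B2_stmt) : WL2_stmt := by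
  classical
  intro p M hS G _ _ K L f hKL hLK hf η hη hSB g₀ hg₀
  have := Fintype.ofFinite G
  let act : MulAction L (G → ℂ) :=
    { smul := fun l ψ => cjF (l : G) ψ
      one_smul := fun ψ => funMap_one' ψ
      mul_smul := fun l m ψ => funMap_mul (l : G) (m : G) ψ }
  have hact : ∀ (l : L) (ψ : G → ℂ), l • ψ = cjF (l : G) ψ := fun _ _ => rfl
  set S : Finset G := Finset.univ.filter (fun x => x ∈ K ∧ ∃ g : G, g * g₀ * g⁻¹ = x) with hSdef
  have hSm : ∀ x, x ∈ S ↔ x ∈ K ∧ ∃ g : G, g * g₀ * g⁻¹ = x := by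
    intro x
    rw [hSdef, Finset.mem_filter]
    simp
  set X : Finset (G → ℂ) := S.image (fun x => cls K x) with hXdef
  have hX : ∀ z, z ∈ X ↔ ∃ y ∈ S, cls K y = z := by
    intro z
    rw [hXdef, Finset.mem_image]
  rw [WL2_sum K η (fun x hx => IrrOn_zero hη hx) g₀ S hSm X hX] at hg₀
  obtain ⟨z, hz, hz1, hz2⟩ := WL2_orb hS (P := L) (fun z : G → ℂ => cc η z) X.card X rfl (by
    intro l z hz
    obtain ⟨y, hy, rfl⟩ := (hX z).1 hz
    rw [hX, hact, WL2_cls (hLK l l.2)]
    refine ⟨(l : G) * y * (l : G)⁻¹, ?_, rfl⟩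
    obtain ⟨hyK, g, hg⟩ := (hSm y).1 hy
    rw [hSm]
    refine ⟨?_, l * g, ?_⟩
    · have h1 := hLK l l.2
      rw [← h1, mem_cjS]
      have : (l : G)⁻¹ * ((l : G) * y * (l : G)⁻¹) * l = y := by group
      rwa [this]
    · rw [← hg]
      group) (by
    intro z hz
    obtain ⟨y, hy, rfl⟩ := (hX z).1 hz
    exact IntAt.of_isIntegral hS (cc_cls_int le_rfl hη y)) (by
    intro l z hz
    obtain ⟨y, hy, rfl⟩ := (hX z).1 hz
    have h1 : cc η (l • cls K y) = cc (cjF (l : G)⁻¹ η) (cls K y) := by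
      rw [cc_funMap, hact]
      congr 1
      funext x
      rw [WL2_app]
      simp
    rw [h1]
    exact InM.of_mcong hS (hSB _ (L.inv_mem l.2) _ (cls_CF ((hSm y).1 hy).1) (fun x => cls_int K y x))) hg₀
  obtain ⟨y, hy, rfl⟩ := (hX z).1 hz
  obtain ⟨hyK, g, hg⟩ := (hSm y).1 hy
  -- the orbit has one element
  have hst : K.subgroupOf L ≤ MulAction.stabilizer L (cls K y) := by
    intro l hl
    rw [Subgroup.mem_subgroupOf] at hl
    rw [MulAction.mem_stabilizer_iff, hact, WL2_cls (hLK l l.2)]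
    exact cls_congr ⟨l, hl, rfl⟩
  have hdv : (MulAction.orbit L (cls K y)).ncard ∣ p ^ f := by
    rw [← MulAction.index_stabilizer, ← hf]
    exact Subgroup.index_dvd_of_le hst
  have h1 : (MulAction.orbit L (cls K y)).ncard = 1 := by
    obtain ⟨i, -, hi⟩ := (Nat.dvd_prime_pow hS.pr).1 hdv
    rw [hi] at hz2 ⊢
    rcases Nat.eq_zero_or_pos i with h0 | h0
    · rw [h0, pow_zero]
    · exact absurd (dvd_pow_self p h0.ne') hz2
  have htop : MulAction.stabilizer L (cls K y) = ⊤ := by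
    rw [← Subgroup.index_eq_one, MulAction.index_stabilizer, h1]
  have hfix : ∀ l ∈ L, ∃ k ∈ K, k * y * k⁻¹ = l * y * l⁻¹ := by
    intro l hl
    have h2 : (⟨l, hl⟩ : L) ∈ MulAction.stabilizer L (cls K y) := by
      rw [htop]
      exact Subgroup.mem_top _
    rw [MulAction.mem_stabilizer_iff, hact, WL2_cls (hLK l hl)] at h2
    have h3 : cls K y (l * y * l⁻¹) ≠ 0 := by
      rw [← h2, cls_one ⟨1, K.one_mem, by group⟩]
      exact one_ne_zero
    exact cls_ne h3
  have hcl : cls L y = cls K y := by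
    funext x
    by_cases h2 : ∃ k ∈ K, k * y * k⁻¹ = x
    · rw [cls_one h2]
      obtain ⟨k, hk, e⟩ := h2
      exact cls_one ⟨k, hKL hk, e⟩
    · rw [cls_zero h2]
      refine cls_zero fun h3 => h2 ?_
      obtain ⟨l, hl, e⟩ := h3
      obtain ⟨k, hk, e'⟩ := hfix l hl
      exact ⟨k, hk, e'.trans e⟩
  have hcard := WL2_card hKL hf y hcl
  refine ⟨y, hyK, ⟨g, hg⟩, hz1, ?_⟩
  have hle : Cz L y ≤ Cz (⊤ : Subgroup G) y := by
    intro x hx
    rw [mem_Cz] at hx ⊢
    exact ⟨Subgroup.mem_top x, hx.2⟩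
  have hd1 : Nat.card (Cz L y) ∣ Nat.card (Cz (⊤ : Subgroup G) g₀) := by
    have e1 : Nat.card (Cz (⊤ : Subgroup G) y) = Nat.card (Cz (⊤ : Subgroup G) g₀) := by
      have h2 := cj_Cz g (⊤ : Subgroup G) g₀
      rw [cj_top, hg] at h2
      rw [h2, card_cj]
    rw [← e1]
    exact Subgroup.card_dvd_of_le hle
  rw [← hcard] at hd1
  have : Fact p.Prime := ⟨hS.pr⟩
  unfold pp
  rw [← pow_add]
  apply Nat.pow_le_pow_right hS.pr.pos
  have h4 : padicValNat p (p ^ f * Nat.card (Cz K y)) = f + padicValNat p (Nat.card (Cz K y)) := by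
    rw [padicValNat.mul (pow_ne_zero _ hS.pr.ne_zero) Nat.card_pos.ne', padicValNat.prime_pow]
  rw [← h4]
  exact (padicValNat_dvd_iff_le Nat.card_pos.ne').1 (dvd_trans pow_padicValNat_dvd hd1)

end Pool.Agent.LE
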